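import Mathlib

/-!
# Counting subset sums
-/

set_option autoImplicit false

namespace Pool.Agent.X65.MP

/-- the number of subsets whose sum satisfies `f` -/
def cn (m : List ℕ) (f : ℕ → Bool) : ℕ := m.sublists.countP fun s => f s.sum

theorem cn_concat (m : List ℕ) (a : ℕ) (f : ℕ → Bool) :
    cn (m ++ [a]) f = cn m f + cn m fun v => f (v + a) := by
  unfold cn
  rw [List.sublists_concat, List.countP_append, List.countP_map]
  congr 1
  refine List.countP_congr fun s _ => ?_
  simp [Function.comp]

theorem cn_nil (f : ℕ → Bool) : cn [] f = if f 0 = true then 1 else 0 := by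
  unfold cn
  cases h : f 0 <;> simp [h]

theorem cn_congr : ∀ (m : List ℕ) {f g : ℕ → Bool}, (∀ v ≤ m.sum, f v = g v) → cn m f = cn m g := by
  intro m f g h
  unfold cn
  refine List.countP_congr fun s hs => ?_
  rw [List.mem_sublists] at hs
  rw [h _ (List.Sublist.sum_le_sum hs (by simp))]

theorem cn_compl : ∀ (m : List ℕ) (f : ℕ → Bool), cn m f = cn m fun v => f (m.sum - v) := by
  intro m
  induction m using List.reverseRecOn with
  | nil => intro f; rw [cn_nil, cn_nil]; simp
  | append_singleton m a ih =>
    intro f
    rw [cn_concat, cn_concat]
    have hs : (m ++ [a]).sum = m.sum + a := by simp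
    rw [hs]
    have h1 : cn m (fun v => f (m.sum + a - v)) = cn m fun v => f (v + a) := by
      rw [ih fun v => f (v + a)]
      refine cn_congr m fun v hv => ?_
      congr 1
      omega
    have h2 : cn m (fun v => f (m.sum + a - (v + a))) = cn m f := by
      rw [ih f]
      refine cn_congr m fun v hv => ?_
      congr 1
      omega
    rw [h1, h2, Nat.add_comm]

theorem cn_three (m : List ℕ) (s : ℕ) : cn m (fun v => decide (v < s)) +
    cn m (fun v => decide (v = s)) + cn m (fun v => decide (s < v)) = 2 ^ m.length := by
  unfold cn
  rw [← List.length_sublists]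
  generalize m.sublists = l
  induction l with
  | nil => rfl
  | cons a l ih =>
    rw [List.countP_cons, List.countP_cons, List.countP_cons, List.length_cons, ← ih]
    simp only [decide_eq_true_eq]
    split_ifs <;> omega

theorem cn_zero {m : List ℕ} (h : ∀ a ∈ m, 0 < a) : cn m (fun v => decide (v ≤ 0)) = 1 := by
  induction m using List.reverseRecOn with
  | nil => rw [cn_nil]; simp
  | append_singleton m a ih =>
    rw [cn_concat, ih fun b hb => h b (by simp [hb])]
    have ha := h a (by simp)
    have h1 : cn m (fun v => decide (v + a ≤ 0)) = 0 := by
      unfold cn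
      rw [List.countP_eq_zero]
      intro s _
      simp only [decide_eq_true_eq]
      omega
    rw [h1]

/-- sums over sets of indices -/
theorem cn_finset : ∀ (m : List ℕ) (f : ℕ → Bool),
    (((Finset.range m.length).powerset.filter fun S => f (∑ i ∈ S, m.getD i 0) = true)).card =
      cn m f := by
  intro m
  induction m using List.reverseRecOn with
  | nil =>
    intro f
    rw [cn_nil]
    cases h : f 0 <;> simp [h, Finset.filter_singleton]
  | append_singleton m a ih =>
    intro f
    rw [cn_concat, ← ih f, ← ih fun v => f (v + a)]
    have hlen : (m ++ [a]).length = m.length + 1 := by simp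
    have hg : ∀ i ∈ Finset.range m.length, (m ++ [a]).getD i 0 = m.getD i 0 := by
      intro i hi
      rw [Finset.mem_range] at hi
      rw [List.getD_append _ _ _ _ hi]
    have hs : ∀ S ∈ (Finset.range m.length).powerset,
        ∑ i ∈ S, (m ++ [a]).getD i 0 = ∑ i ∈ S, m.getD i 0 := by
      intro S hS
      rw [Finset.mem_powerset] at hS
      exact Finset.sum_congr rfl fun i hi => hg i (hS hi)
    have hl : (m ++ [a]).getD m.length 0 = a := by
      rw [List.getD_append_right _ _ _ _ le_rfl]
      simp
    rw [hlen, Finset.range_add_one, Finset.powerset_insert, Finset.filter_union,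
      Finset.card_union_of_disjoint]
    · congr 1
      · congr 1
        refine Finset.filter_congr fun S hS => ?_
        rw [hs S hS]
      · rw [Finset.filter_image, Finset.card_image_of_injOn]
        · congr 1
          refine Finset.filter_congr fun S hS => ?_
          have hn : m.length ∉ S := fun h => by
            have := Finset.mem_powerset.1 hS h
            simp at this
          rw [Finset.sum_insert hn, hl, hs S hS, Nat.add_comm]
        · intro S hS S' hS' h
          rw [Finset.mem_coe, Finset.mem_filter, Finset.mem_powerset] at hS hS'
          have hn : m.length ∉ S := fun h => by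
            have := hS.1 h
            simp at this
          have hn' : m.length ∉ S' := fun h => by
            have := hS'.1 h
            simp at this
          have := congrArg (fun Z => Finset.erase Z m.length) h
          simpa [Finset.erase_insert hn, Finset.erase_insert hn'] using this
    · rw [Finset.disjoint_left]
      intro S hS hS'
      rw [Finset.mem_filter, Finset.mem_powerset] at hS
      rw [Finset.mem_filter, Finset.mem_image] at hS'
      obtain ⟨⟨S', _, rfl⟩, _⟩ := hS'
      have := hS.1 (Finset.mem_insert_self _ _)
      simp at this

/-- The main count: `l` with two more numbers, and the number `2 A - 1`. -/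
theorem main {l : List ℕ} {t : ℕ} (h0 : ∀ a ∈ l, 0 < a) (ht : t < l.sum) :
    cn (((l ++ [2 * l.sum - t]) ++ [l.sum + t]) ++ [2 * l.sum - 1])
        (fun v => decide (v ≤ 2 * l.sum - 1)) +
      cn l (fun v => decide (v = t)) = 2 ^ (l.length + 1) + 1 := by
  set A := l.sum with hA
  set y := (l ++ [2 * A - t]) ++ [A + t] with hy
  have hys : y.sum = 4 * A := by
    rw [hy]
    simp only [List.sum_append, List.sum_cons, List.sum_nil]
    omega
  have hyl : y.length = l.length + 2 := by
    rw [hy]
    simp
  have hy0 : ∀ a ∈ y, 0 < a := by
    intro a ha
    rw [hy] at ha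
    simp only [List.mem_append, List.mem_cons, List.not_mem_nil, or_false] at ha
    rcases ha with (ha | ha) | ha
    · exact h0 a ha
    · omega
    · omega
  rw [cn_concat]
  have h1 : cn y (fun v => decide (v + (2 * A - 1) ≤ 2 * A - 1)) = 1 := by
    rw [← cn_zero hy0]
    refine cn_congr y fun v _ => ?_
    rw [decide_eq_decide]
    omega
  have h2 : cn y (fun v => decide (v ≤ 2 * A - 1)) = cn y (fun v => decide (v < 2 * A)) := by
    refine cn_congr y fun v _ => ?_
    rw [decide_eq_decide]
    omega
  have h3 : cn y (fun v => decide (2 * A < v)) = cn y (fun v => decide (v < 2 * A)) := by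
    rw [cn_compl y fun v => decide (v < 2 * A)]
    refine cn_congr y fun v hv => ?_
    rw [decide_eq_decide]
    omega
  have h4 := cn_three y (2 * A)
  rw [h3, hyl] at h4
  have h5 : cn y (fun v => decide (v = 2 * A)) = 2 * cn l (fun v => decide (v = t)) := by
    rw [hy, cn_concat, cn_concat, cn_concat]
    have g1 : cn l (fun v => decide (v = 2 * A)) = 0 := by
      rw [cn_congr l (g := fun _ => false) fun v hv => by
        rw [decide_eq_false_iff_not]; omega]
      unfold cn
      simp
    have g2 : cn l (fun v => decide (v + (2 * A - t) = 2 * A)) =
        cn l (fun v => decide (v = t)) := by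
      refine cn_congr l fun v hv => ?_
      rw [decide_eq_decide]
      omega
    have g3 : cn l (fun v => decide (v + (A + t) = 2 * A)) =
        cn l (fun v => decide (v = t)) := by
      rw [cn_compl l fun v => decide (v = t)]
      refine cn_congr l fun v hv => ?_
      rw [decide_eq_decide]
      omega
    have g4 : cn l (fun v => decide (v + (2 * A - t) + (A + t) = 2 * A)) = 0 := by
      rw [cn_congr l (g := fun _ => false) fun v hv => by
        rw [decide_eq_false_iff_not]; omega]
      unfold cn
      simp
    have g4' : cn l (fun v => decide (v + (2 * A - t) = 2 * A)) = _ := g2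
    rw [g1, g2, g3]
    have g5 : cn l (fun v => decide (v + (2 * A - t) + (A + t) = 2 * A)) = 0 := g4
    rw [g5]
    omega
  rw [h5] at h4
  rw [h1, h2]
  have h6 : 2 ^ (l.length + 2) = 2 * 2 ^ (l.length + 1) := by ring
  omega

end Pool.Agent.X65.MP
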