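import Pool.Agent.X65.MP.Count
import Pool.Agent.H671R2.SubsetSum
import Pool.Agent.H622R2.CoNP
import Pool.Agent.X249.Kit

/-!
# The randomization test for matched pairs is coNP-hard
-/

set_option autoImplicit false

namespace Pool.Agent.X65.MP

open Pool.Agent.NPC Pool.Agent.NPC.R671.SS

/-- `d_i = |x_i - y_i|` -/
def dd (q : ℤ × ℤ) : ℕ := (q.1 - q.2).natAbs

/-- `T`, the sum of the `x_i - y_i` over the `i` with `x_i > y_i` -/
def tt (x : List (ℤ × ℤ)) : ℕ := (x.map fun q => if q.2 < q.1 then dd q else 0).sum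

/-- `N`, the number of the subsets `S` of the set of indices with `∑_{i ∈ S} d_i ≤ T` -/
def nn (x : List (ℤ × ℤ)) : ℕ :=
  ((Finset.range x.length).powerset.filter fun S =>
    ∑ i ∈ S, dd (x.getD i (0, 0)) ≤ tt x).card

/-- The decision problem RTMP: `N ≥ K`. -/
def RTMP (y : List (ℤ × ℤ) × ℕ) : Prop := y.2 ≤ nn y.1

/-- the pairs -/
def prs (y : List ℕ × ℕ) : List (ℤ × ℤ) :=
  (((y.1.map fun a : ℕ => ((0 : ℤ), (a : ℤ))) ++ [((0 : ℤ), ((2 * y.1.sum - y.2 : ℕ) : ℤ))]) ++
    [((0 : ℤ), ((y.1.sum + y.2 : ℕ) : ℤ))]) ++ [(((2 * y.1.sum - 1 : ℕ) : ℤ), (0 : ℤ))]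

/-- the threshold, `2 ^ (length + 1) + 1` -/
def thr (y : List ℕ × ℕ) : ℕ :=
  valB ((y.1.map fun _ => false) ++ [false, true]) + 1

theorem thr_eq (y : List ℕ × ℕ) : thr y = 2 ^ (y.1.length + 1) + 1 := by
  unfold thr
  rw [valB_append]
  have h : valB (y.1.map fun _ => false) = 0 := by
    induction y.1 with
    | nil => rfl
    | cons a l ih => rw [List.map_cons, valB_cons, ih]; rfl
  rw [h, List.length_map]
  simp [pow_succ]

theorem map_dd (y : List ℕ × ℕ) : (prs y).map dd =
    ((y.1 ++ [2 * y.1.sum - y.2]) ++ [y.1.sum + y.2]) ++ [2 * y.1.sum - 1] := by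
  unfold prs dd
  simp only [List.map_append, List.map_map, List.map_cons, List.map_nil, zero_sub,
    Int.natAbs_neg, Int.natAbs_natCast, sub_zero]
  congr 3
  rw [List.map_congr_left (g := id)]
  · simp
  · intro a _
    simp [Function.comp]

theorem tt_prs (y : List ℕ × ℕ) (h : 0 < y.1.sum) : tt (prs y) = 2 * y.1.sum - 1 := by
  unfold tt prs
  simp only [List.map_append, List.map_map, List.map_cons, List.map_nil, List.sum_append,
    List.sum_cons, List.sum_nil]
  have h1 : (y.1.map ((fun q : ℤ × ℤ => if q.2 < q.1 then dd q else 0) ∘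
      fun a : ℕ => ((0 : ℤ), (a : ℤ)))).sum = 0 := by
    rw [List.sum_eq_zero]
    intro a ha
    rw [List.mem_map] at ha
    obtain ⟨b, _, rfl⟩ := ha
    simp only [Function.comp]
    rw [if_neg (by omega)]
  rw [h1, if_neg (by omega), if_neg (by omega), if_pos (by omega)]
  unfold dd
  simp only
  omega

theorem nn_eq (x : List (ℤ × ℤ)) : nn x = cn (x.map dd) fun v => decide (v ≤ tt x) := by
  unfold nn
  rw [← cn_finset, List.length_map]
  congr 1
  refine Finset.filter_congr fun S hS => ?_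
  rw [decide_eq_true_eq]
  have h : ∑ i ∈ S, dd (x.getD i (0, 0)) = ∑ i ∈ S, (x.map dd).getD i 0 := by
    refine Finset.sum_congr rfl fun i hi => ?_
    have hi' : i < x.length := Finset.mem_range.1 (Finset.mem_powerset.1 hS hi)
    rw [List.getD_eq_getElem _ _ hi', List.getD_eq_getElem _ _ (by simpa using hi')]
    simp
  rw [h]

theorem correct {y : List ℕ × ℕ} (h : Nice y) : SubsetSum y ↔ ¬ RTMP (prs y, thr y) := by
  obtain ⟨h1, h2⟩ := h
  have h3 := main (l := y.1) (t := y.2) (fun a ha => (h1 a ha).1) h2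
  unfold RTMP
  simp only
  rw [thr_eq, nn_eq, map_dd, tt_prs y (by omega), not_le]
  have h4 : SubsetSum y ↔ 0 < cn y.1 (fun v => decide (v = y.2)) := by
    unfold SubsetSum cn
    rw [List.countP_pos_iff]
    simp only [List.mem_sublists, decide_eq_true_eq]
  rw [h4]
  omega

theorem poly_prs : NPC.Poly prs := by
  unfold prs
  fun_prop

theorem poly_thr : NPC.Poly thr := by
  unfold thr
  refine NPC.Poly.add (NPC.Poly.valBits ?_) (NPC.Poly.const 1)
  fun_prop

theorem hardI : HardI (fun y => ¬ RTMP y) :=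
  (hardPr_SubsetSum.trans (Pr' := fun _ => True) (NPC.Poly.pair poly_prs poly_thr)
    (fun _ _ => trivial) (Q := fun y => ¬ RTMP y) fun _ hy => correct hy).toHardI

theorem coNPHard : CoNPHardP RTMP := hardI.toCoNPHardP

end Pool.Agent.X65.MP
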